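import Pool.Agent.R766.Proc

/-!
# Polynomially reinforced directed walks that are almost surely not trapped

For the directed edge reinforced random walk with polynomial reinforcement of parameter `γ` on a
connected locally finite graph, the probability of being trapped in a directed circuit is `0` when
`γ ≤ 1/2`, and also when `γ ≤ 1` and some vertex has degree different from `2`.

The event is a countable union of events `the walk follows the path x` with `x` eventually
periodic. Along such a path the weight of an edge is at most `k ^ γ` at time `k`. The weight of the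
edge that leads back is at least `k ^ (-γ)`, and the weight of an edge that leaves the circuit does
not change. So the conditional probability to leave `x` at time `k` is at least a constant times
`k ^ (- 2 γ)`, respectively `k ^ (- γ)`, for all `k` in an arithmetic progression.
-/

set_option autoImplicit false

open MeasureTheory Finset
open scoped ENNReal

namespace Pool.Agent.Results.MP_856411_pr.NotTrapped

variable {V : Type*}

open Classical in
/-- The crossing number `c_n(a, b)` along the path `x`: the net number of jumps from `a` to `b`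
before time `n`. -/
noncomputable def crossing (x : ℕ → V) (n : ℕ) (a b : V) : ℤ :=
  ∑ k ∈ range n, ((if x k = a ∧ x (k + 1) = b then 1 else 0) -
    (if x k = b ∧ x (k + 1) = a then 1 else 0))

/-- The weight of an edge with crossing number `z` under polynomial reinforcement. -/
noncomputable def weight (γ : ℝ) (z : ℤ) : ℝ :=
  if 0 < z then (z : ℝ) ^ γ else if z = 0 then 1 else (-(z : ℝ)) ^ (-γ)

open Classical in
/-- The conditional probability, given the path `x` up to time `n`, that the walk is at `y` at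
time `n + 1`. -/
noncomputable def stepProb (G : SimpleGraph V) [G.LocallyFinite] (γ : ℝ) (x : ℕ → V) (n : ℕ)
    (y : V) : ℝ :=
  if G.Adj (x n) y then weight γ (crossing x n (x n) y) /
    ∑ z ∈ G.neighborFinset (x n), weight γ (crossing x n (x n) z) else 0

/-- `X` is the walk with polynomial reinforcement of parameter `γ` on `G` started at `v`. -/
structure IsWalk (G : SimpleGraph V) [G.LocallyFinite] (γ : ℝ) (v : V) {Ω : Type*}
    {_ : MeasurableSpace Ω} (P : Measure Ω) (X : ℕ → Ω → V) : Prop where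
  prob : IsProbabilityMeasure P
  meas : ∀ n y, MeasurableSet {ω | X n ω = y}
  start : P {ω | X 0 ω = v} = 1
  step : ∀ (n : ℕ) (x : ℕ → V) (y : V), P {ω | (∀ i ≤ n, X i ω = x i) ∧ X (n + 1) ω = y} =
    P {ω | ∀ i ≤ n, X i ω = x i} * ENNReal.ofReal (stepProb G γ x n y)

/-- The path `x` is trapped in a directed circuit `u` of length `m ≥ 3`. -/
def Trapped (G : SimpleGraph V) (x : ℕ → V) : Prop :=
  ∃ m ≥ 3, ∃ u : ZMod m → V, Function.Injective u ∧ (∀ i, G.Adj (u i) (u (i + 1))) ∧
    ∃ (N : ℕ) (i : ZMod m), ∀ j : ℕ, x (N + j) = u (i + j)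

/-! ### Weights -/

theorem abs_crossing_le (x : ℕ → V) (n : ℕ) (a b : V) : |crossing x n a b| ≤ n := by
  classical
  unfold crossing
  calc |∑ k ∈ range n, ((if x k = a ∧ x (k + 1) = b then (1 : ℤ) else 0) -
      (if x k = b ∧ x (k + 1) = a then 1 else 0))|
      ≤ ∑ k ∈ range n, |((if x k = a ∧ x (k + 1) = b then (1 : ℤ) else 0) -
      (if x k = b ∧ x (k + 1) = a then 1 else 0))| := abs_sum_le_sum_abs _ _
    _ ≤ ∑ k ∈ range n, 1 := sum_le_sum fun k _ => by split_ifs <;> simp
    _ = n := by simp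

theorem weight_pos (γ : ℝ) (z : ℤ) : 0 < weight γ z := by
  unfold weight
  split_ifs with h1 h2
  · exact Real.rpow_pos_of_pos (by exact_mod_cast h1) _
  · exact one_pos
  · refine Real.rpow_pos_of_pos ?_ _
    have : z < 0 := by omega
    have : (z : ℝ) < 0 := by exact_mod_cast this
    linarith

theorem weight_le {γ : ℝ} (hγ : 0 ≤ γ) {z : ℤ} {n : ℕ} (hn : 1 ≤ n) (hz : |z| ≤ n) :
    weight γ z ≤ (n : ℝ) ^ γ := by
  have hn' : (1 : ℝ) ≤ n := by exact_mod_cast hn
  unfold weight
  split_ifs with h1 h2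
  · refine Real.rpow_le_rpow (by exact_mod_cast h1.le) ?_ hγ
    have := (abs_le.1 hz).2
    exact_mod_cast this
  · exact Real.one_le_rpow hn' hγ
  · have h3 : z ≤ -1 := by omega
    have h4 : (z : ℝ) ≤ -1 := by exact_mod_cast h3
    exact (Real.rpow_le_one_of_one_le_of_nonpos (by linarith) (by linarith)).trans
      (Real.one_le_rpow hn' hγ)

theorem le_weight {γ : ℝ} (hγ : 0 ≤ γ) {z : ℤ} {n : ℕ} (hn : 1 ≤ n) (hz : |z| ≤ n) :
    (n : ℝ) ^ (-γ) ≤ weight γ z := by
  have hn' : (1 : ℝ) ≤ n := by exact_mod_cast hn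
  have h0 : (n : ℝ) ^ (-γ) ≤ 1 := Real.rpow_le_one_of_one_le_of_nonpos hn' (by linarith)
  unfold weight
  split_ifs with h1 h2
  · have h3 : (1 : ℝ) ≤ z := by exact_mod_cast (show (1 : ℤ) ≤ z by omega)
    exact h0.trans (Real.one_le_rpow h3 hγ)
  · exact h0
  · have h3 : z ≤ -1 := by omega
    have h4 : (z : ℝ) ≤ -1 := by exact_mod_cast h3
    have h5 : (-(z : ℝ)) ≤ n := by
      have := (abs_le.1 hz).1
      have h6 : -z ≤ (n : ℤ) := by omega
      exact_mod_cast h6
    exact Real.rpow_le_rpow_of_nonpos (by linarith) h5 (by linarith)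

variable (G : SimpleGraph V) [G.LocallyFinite] (γ : ℝ)

theorem total_pos (x : ℕ → V) (n : ℕ) (h : ∃ y, G.Adj (x n) y) :
    0 < ∑ z ∈ G.neighborFinset (x n), weight γ (crossing x n (x n) z) := by
  obtain ⟨y, hy⟩ := h
  exact sum_pos (fun z _ => weight_pos _ _) ⟨y, by simpa using hy⟩

theorem stepProb_nonneg (x : ℕ → V) (n : ℕ) (y : V) : 0 ≤ stepProb G γ x n y := by
  unfold stepProb
  split_ifs
  · exact div_nonneg (weight_pos _ _).le (sum_nonneg fun z _ => (weight_pos _ _).le)
  · exact le_rfl

theorem sum_stepProb (x : ℕ → V) (n : ℕ) (h : ∃ y, G.Adj (x n) y) :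
    ∑ y ∈ G.neighborFinset (x n), stepProb G γ x n y = 1 := by
  have h1 : ∀ y ∈ G.neighborFinset (x n), stepProb G γ x n y = weight γ (crossing x n (x n) y) /
      ∑ z ∈ G.neighborFinset (x n), weight γ (crossing x n (x n) z) := by
    intro y hy
    unfold stepProb
    rw [if_pos (by simpa using hy)]
  rw [sum_congr rfl h1, ← sum_div, div_self (total_pos G γ x n h).ne']

/-- The probability to follow the path is at most one minus the probability of another step. -/
theorem stepProb_le (x : ℕ → V) (n : ℕ) (y : V) (hx : G.Adj (x n) (x (n + 1)))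
    (hy : G.Adj (x n) y) (hne : y ≠ x (n + 1)) :
    stepProb G γ x n (x (n + 1)) ≤ 1 - stepProb G γ x n y := by
  classical
  rw [← sum_stepProb G γ x n ⟨_, hx⟩]
  have h1 : ∑ z ∈ ({x (n + 1), y} : Finset V), stepProb G γ x n z ≤
      ∑ z ∈ G.neighborFinset (x n), stepProb G γ x n z := by
    refine sum_le_sum_of_subset_of_nonneg ?_ fun z _ _ => stepProb_nonneg G γ x n z
    intro z hz
    simp only [mem_insert, mem_singleton] at hz
    rcases hz with rfl | rfl
    · simpa using hx
    · simpa using hy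
  rw [sum_pair hne.symm] at h1
  linarith

theorem le_stepProb {γ : ℝ} (hγ : 0 ≤ γ) (x : ℕ → V) {n : ℕ} (hn : 1 ≤ n) (y : V)
    (hy : G.Adj (x n) y) :
    weight γ (crossing x n (x n) y) / (G.degree (x n) * (n : ℝ) ^ γ) ≤ stepProb G γ x n y := by
  unfold stepProb
  rw [if_pos hy]
  refine div_le_div_of_nonneg_left (weight_pos _ _).le (total_pos G γ x n ⟨y, hy⟩) ?_
  calc ∑ z ∈ G.neighborFinset (x n), weight γ (crossing x n (x n) z)
      ≤ ∑ z ∈ G.neighborFinset (x n), (n : ℝ) ^ γ :=
        sum_le_sum fun z _ => weight_le hγ hn (abs_crossing_le _ _ _ _)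
    _ = G.degree (x n) * (n : ℝ) ^ γ := by
        rw [sum_const, nsmul_eq_mul, SimpleGraph.card_neighborFinset_eq_degree]

/-! ### Divergence -/

theorem not_summable_of_progression {q : ℕ → ℝ} {δ s : ℝ} (hδ : 0 < δ)
    (hs : s ≤ 1) {N m : ℕ} (hm : 1 ≤ m) (h : ∀ j ≥ 1, δ * ((N + m * j : ℕ) : ℝ) ^ (-s) ≤ q (N + m * j)) :
    ¬ Summable q := by
  intro hsum
  have h1 : Summable fun j : ℕ => q (N + m * (j + 1)) := by
    refine hsum.comp_injective (i := fun j : ℕ => N + m * (j + 1)) fun a b hab => ?_
    have h2 : N + m * (a + 1) = N + m * (b + 1) := hab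
    have h3 : m * (a + 1) = m * (b + 1) := by omega
    have := Nat.eq_of_mul_eq_mul_left hm h3
    omega
  have h2 : Summable fun j : ℕ => (1 : ℝ) / ((j + 1 : ℕ) : ℝ) := by
    have h3 : Summable fun j : ℕ => ((N + m : ℝ) / δ) * q (N + m * (j + 1)) := h1.mul_left _
    refine Summable.of_nonneg_of_le (fun j => by positivity) (fun j => ?_) h3
    have h4 := h (j + 1) (by omega)
    have h5 : (1 : ℝ) ≤ ((N + m * (j + 1) : ℕ) : ℝ) := by
      have : 1 ≤ N + m * (j + 1) := by nlinarith
      exact_mod_cast this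
    have h6 : 1 / ((N + m * (j + 1) : ℕ) : ℝ) ≤ ((N + m * (j + 1) : ℕ) : ℝ) ^ (-s) := by
      rw [one_div, ← Real.rpow_neg_one]
      exact Real.rpow_le_rpow_of_exponent_le h5 (by linarith)
    have h7 : 1 / ((N + m : ℝ) * ((j + 1 : ℕ) : ℝ)) ≤ 1 / ((N + m * (j + 1) : ℕ) : ℝ) := by
      refine one_div_le_one_div_of_le (by linarith) ?_
      push_cast
      have : (0 : ℝ) ≤ N * j := by positivity
      nlinarith
    have h8 : (0 : ℝ) < N + m := by
      have : (1 : ℝ) ≤ m := by exact_mod_cast hm
      positivity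
    calc (1 : ℝ) / ((j + 1 : ℕ) : ℝ) = (N + m : ℝ) * (1 / ((N + m : ℝ) * ((j + 1 : ℕ) : ℝ))) := by
          field_simp
      _ ≤ (N + m : ℝ) * ((N + m * (j + 1) : ℕ) : ℝ) ^ (-s) :=
          mul_le_mul_of_nonneg_left (h7.trans h6) h8.le
      _ = (N + m : ℝ) / δ * (δ * ((N + m * (j + 1) : ℕ) : ℝ) ^ (-s)) := by
          field_simp
      _ ≤ _ := mul_le_mul_of_nonneg_left h4 (by positivity)
  exact Real.not_summable_one_div_natCast ((summable_nat_add_iff 1).1 h2)

/-! ### Trapped paths -/

/-- The circuit as seen from the path. -/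
theorem adj_of_trapped {m : ℕ} {u : ZMod m → V} (hu : ∀ i, G.Adj (u i) (u (i + 1))) {x : ℕ → V}
    {N : ℕ} {i : ZMod m} (hx : ∀ j : ℕ, x (N + j) = u (i + j)) (j : ℕ) :
    G.Adj (x (N + j)) (x (N + j + 1)) := by
  rw [add_assoc, hx, hx]
  push_cast
  rw [← add_assoc]
  exact hu _

theorem crossing_const {m : ℕ} {u : ZMod m → V} (hinj : Function.Injective u) {x : ℕ → V}
    {N : ℕ} {i : ZMod m} (hx : ∀ j : ℕ, x (N + j) = u (i + j)) (r : ZMod m) (y : V)
    (h1 : y ≠ u (r + 1)) (h2 : y ≠ u (r - 1)) (k : ℕ) :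
    crossing x (N + k) (u r) y = crossing x N (u r) y := by
  classical
  unfold crossing
  rw [sum_range_add, add_eq_left]
  refine sum_eq_zero fun j _ => ?_
  rw [if_neg, if_neg, sub_zero]
  · rintro ⟨h3, h4⟩
    rw [hx] at h3
    rw [add_assoc, hx] at h4
    push_cast at h4
    have h5 := hinj h4
    apply h2
    rw [← h3, ← h5]
    congr 1
    ring
  · rintro ⟨h3, h4⟩
    rw [hx] at h3
    rw [add_assoc, hx] at h4
    push_cast at h4
    have h5 := hinj h3
    apply h1
    rw [← h4, ← h5]
    congr 1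
    ring

/-- In a connected graph with a vertex of degree different from `2`, every circuit has a vertex with
a neighbour that is not its predecessor or successor. -/
theorem exists_exit (hG : G.Connected) (hw : ∃ w, G.degree w ≠ 2) {m : ℕ} (hm : 3 ≤ m)
    {u : ZMod m → V} (hinj : Function.Injective u) (hu : ∀ i, G.Adj (u i) (u (i + 1))) :
    ∃ (r : ZMod m) (y : V), G.Adj (u r) y ∧ y ≠ u (r + 1) ∧ y ≠ u (r - 1) := by
  classical
  by_contra hcon
  push Not at hcon
  have hclosed : ∀ a b, G.Adj a b → a ∈ Set.range u → b ∈ Set.range u := by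
    rintro a b hab ⟨r, rfl⟩
    by_cases h : b = u (r + 1)
    · exact ⟨_, h.symm⟩
    · exact ⟨_, (hcon r b hab h).symm⟩
  have hall : ∀ b, b ∈ Set.range u := by
    intro b
    obtain ⟨p⟩ := hG.preconnected (u 0) b
    have : ∀ {a b : V} (p : G.Walk a b), a ∈ Set.range u → b ∈ Set.range u := by
      intro a b p
      induction p with
      | nil => exact id
      | cons h _ ih => exact fun ha => ih (hclosed _ _ h ha)
    exact this p ⟨0, rfl⟩
  obtain ⟨w, hw⟩ := hw
  obtain ⟨r, rfl⟩ := hall w
  apply hw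
  have h1 : G.neighborFinset (u r) = {u (r + 1), u (r - 1)} := by
    ext b
    simp only [SimpleGraph.mem_neighborFinset, mem_insert, mem_singleton]
    constructor
    · intro h
      by_cases h2 : b = u (r + 1)
      · exact Or.inl h2
      · exact Or.inr (hcon r b h h2)
    · rintro (rfl | rfl)
      · exact hu r
      · have := hu (r - 1)
        rw [sub_add_cancel] at this
        exact this.symm
  rw [← SimpleGraph.card_neighborFinset_eq_degree, h1, card_pair]
  intro h
  have h2 := hinj h
  have h3 : ((2 : ℕ) : ZMod m) = 0 := by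
    have : (r + 1) - (r - 1) = 0 := by rw [h2, sub_self]
    push_cast
    linear_combination this
  rw [ZMod.natCast_eq_zero_iff] at h3
  have := Nat.le_of_dvd (by norm_num) h3
  omega

theorem stepProb_le_one (x : ℕ → V) (n : ℕ) (y : V) : stepProb G γ x n y ≤ 1 := by
  by_cases h : G.Adj (x n) y
  · rw [← sum_stepProb G γ x n ⟨y, h⟩]
    exact single_le_sum (f := stepProb G γ x n) (fun z _ => stepProb_nonneg G γ x n z)
      (by simpa using h)
  · unfold stepProb
    rw [if_neg h]
    exact zero_le_one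

theorem trapped_diverges {γ : ℝ} (hG : G.Connected) (hγ : 0 ≤ γ)
    (h : γ ≤ 1 / 2 ∨ γ ≤ 1 ∧ ∃ w, G.degree w ≠ 2) {x : ℕ → V} (hx : Trapped G x) :
    ¬ Summable fun n => 1 - stepProb G γ x n (x (n + 1)) := by
  obtain ⟨m, hm, u, hinj, hu, N, i, hx⟩ := hx
  have : NeZero m := ⟨by omega⟩
  have hadj := adj_of_trapped G hu hx
  have h2 : ((2 : ℕ) : ZMod m) ≠ 0 := by
    intro h
    rw [ZMod.natCast_eq_zero_iff] at h
    have := Nat.le_of_dvd (by norm_num) h
    omega
  have hback : ∀ r, u (r - 1) ≠ u (r + 1) := by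
    intro r hr
    apply h2
    have h3 := hinj hr
    have : (r + 1) - (r - 1) = 0 := by rw [← h3, sub_self]
    push_cast
    linear_combination this
  have hadj' : ∀ r, G.Adj (u r) (u (r - 1)) := by
    intro r
    have := hu (r - 1)
    rw [sub_add_cancel] at this
    exact this.symm
  have hdeg : ∀ r, (0 : ℝ) < G.degree (u r) := by
    intro r
    exact_mod_cast (G.degree_pos_iff_exists_adj (u r)).2 ⟨_, hu r⟩
  rcases h with h | ⟨h, hw⟩
  · have hx0 : ∀ j : ℕ, x (N + m * j) = u i := by
      intro j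
      rw [hx]; simp
    have hx1 : ∀ j : ℕ, x (N + m * j + 1) = u (i + 1) := by
      intro j
      rw [add_assoc, hx]; simp
    refine not_summable_of_progression (δ := (G.degree (u i) : ℝ)⁻¹) (s := 2 * γ)
      (inv_pos.2 (hdeg i)) (by linarith) (N := N) (m := m) (by omega) fun j hj => ?_
    have hn : 1 ≤ N + m * j := by nlinarith
    have hn' : (0 : ℝ) < ((N + m * j : ℕ) : ℝ) := by exact_mod_cast hn
    have ha : G.Adj (x (N + m * j)) (u (i - 1)) := by rw [hx0]; exact hadj' i
    have h3 := stepProb_le G γ x (N + m * j) (u (i - 1)) (hadj _) ha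
      (by rw [hx1]; exact hback i)
    have h4 := le_stepProb G hγ x hn _ ha
    have h5 := le_weight hγ hn (abs_crossing_le x (N + m * j) (x (N + m * j)) (u (i - 1)))
    have h6 : (G.degree (u i) : ℝ)⁻¹ * ((N + m * j : ℕ) : ℝ) ^ (-(2 * γ)) =
        ((N + m * j : ℕ) : ℝ) ^ (-γ) / (G.degree (x (N + m * j)) * ((N + m * j : ℕ) : ℝ) ^ γ) := by
      rw [hx0, show -(2 * γ) = -γ + -γ by ring, Real.rpow_add hn', Real.rpow_neg hn'.le γ]
      field_simp
    rw [h6]
    have h7 : (0 : ℝ) < G.degree (x (N + m * j)) * ((N + m * j : ℕ) : ℝ) ^ γ := by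
      rw [hx0]
      exact mul_pos (hdeg i) (Real.rpow_pos_of_pos hn' _)
    have h8 := div_le_div_of_nonneg_right h5 h7.le
    linarith
  · obtain ⟨r, y, hy, hy1, hy2⟩ := exists_exit G hG hw hm hinj hu
    set k₀ := (r - i).val with hk
    have hk' : ((k₀ : ℕ) : ZMod m) = r - i := by rw [hk, ZMod.natCast_zmod_val]
    have hx0 : ∀ j : ℕ, x (N + k₀ + m * j) = u r := by
      intro j
      rw [add_assoc, hx]; push_cast; rw [hk']; simp
    have hx1 : ∀ j : ℕ, x (N + k₀ + m * j + 1) = u (r + 1) := by
      intro j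
      rw [add_assoc, add_assoc, hx]; push_cast; rw [hk']; congr 1
      rw [ZMod.natCast_self]; ring
    refine not_summable_of_progression
      (δ := weight γ (crossing x N (u r) y) * (G.degree (u r) : ℝ)⁻¹) (s := γ)
      (mul_pos (weight_pos _ _) (inv_pos.2 (hdeg r))) h (N := N + k₀) (m := m) (by omega)
      fun j hj => ?_
    have hn : 1 ≤ N + k₀ + m * j := by nlinarith
    have hn' : (0 : ℝ) < ((N + k₀ + m * j : ℕ) : ℝ) := by exact_mod_cast hn
    have ha : G.Adj (x (N + k₀ + m * j)) y := by rw [hx0]; exact hy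
    have hstep := hadj (k₀ + m * j)
    rw [← add_assoc] at hstep
    have h3 := stepProb_le G γ x (N + k₀ + m * j) y hstep ha (by rw [hx1]; exact hy1)
    have h4 := le_stepProb G hγ x hn _ ha
    have h5 : crossing x (N + k₀ + m * j) (x (N + k₀ + m * j)) y = crossing x N (u r) y := by
      rw [hx0, add_assoc]
      exact crossing_const hinj hx r y hy1 hy2 _
    rw [h5, hx0] at h4
    refine le_trans (le_of_eq ?_) (h4.trans (by linarith))
    rw [Real.rpow_neg hn'.le γ]
    field_simp

/-- There are only countably many trapped paths. -/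
theorem countable_trapped [Countable V] : {x : ℕ → V | Trapped G x}.Countable := by
  classical
  rcases isEmpty_or_nonempty V with hV | ⟨⟨v⟩⟩
  · exact Set.to_countable _
  refine Set.Countable.mono ?_ (Set.countable_range fun a : ℕ × ℕ × List V =>
    (fun k => if k < a.1 then a.2.2.getD k v else a.2.2.getD (a.1 + (k - a.1) % a.2.1) v : ℕ → V))
  rintro x ⟨m, hm, u, hinj, hu, N, i, hx⟩
  refine ⟨(N, m, (List.range (N + m)).map x), ?_⟩
  have hget : ∀ k < N + m, ((List.range (N + m)).map x).getD k v = x k := by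
    intro k hk
    rw [List.getD_eq_getElem _ _ (by simpa using hk)]
    simp
  funext k
  dsimp only
  split_ifs with hk
  · exact hget k (by omega)
  · have h1 : (k - N) % m < m := Nat.mod_lt _ (by omega)
    rw [hget _ (by omega), hx]
    have h2 : k = N + (k - N) := by omega
    conv_rhs => rw [h2, hx]
    rw [ZMod.natCast_mod]

/-- A connected locally finite graph is countable. -/
theorem countable_of_connected (hG : G.Connected) : Countable V := by
  classical
  obtain ⟨v⟩ := hG.nonempty
  let B : ℕ → Set V := fun n => Nat.rec {v} (fun _ S => ⋃ a ∈ S, (G.neighborFinset a : Set V)) n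
  have hB : ∀ n, (B n).Countable := by
    intro n
    induction n with
    | zero => exact Set.countable_singleton v
    | succ n ih => exact ih.biUnion fun a _ => (Finset.finite_toSet _).countable
  have h1 : ∀ (n : ℕ) (a b : V) (p : G.Walk a b) (k : ℕ), a ∈ B k → b ∈ B (k + p.length) := by
    intro _ a b p
    induction p with
    | nil => intro k h; exact h
    | @cons a b c hab p ih =>
      intro k ha
      have h2 : b ∈ B (k + 1) := Set.mem_biUnion ha (by simpa using hab)
      have h3 := ih (k + 1) h2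
      rw [SimpleGraph.Walk.length_cons, show k + (p.length + 1) = k + 1 + p.length by omega]
      exact h3
  have h2 : (Set.univ : Set V) ⊆ ⋃ n, B n := by
    intro b _
    obtain ⟨p⟩ := hG.preconnected v b
    exact Set.mem_iUnion.2 ⟨_, h1 0 v b p 0 rfl⟩
  exact Set.countable_univ_iff.1 ((Set.countable_iUnion hB).mono h2)

theorem tsum_stepProb (x : ℕ → V) (n : ℕ) (h : ∃ y, G.Adj (x n) y) :
    ∑' y, ENNReal.ofReal (stepProb G γ x n y) = 1 := by
  rw [tsum_eq_sum (s := G.neighborFinset (x n)), ← ENNReal.ofReal_sum_of_nonneg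
    fun y _ => stepProb_nonneg G γ x n y, sum_stepProb G γ x n h, ENNReal.ofReal_one]
  intro y hy
  unfold stepProb
  rw [if_neg (by simpa using hy), ENNReal.ofReal_zero]

theorem crossing_congr {x x' : ℕ → V} {n : ℕ} (h : ∀ i ≤ n, x i = x' i) (a b : V) :
    crossing x n a b = crossing x' n a b := by
  classical
  unfold crossing
  refine sum_congr rfl fun k hk => ?_
  rw [h k (mem_range.1 hk).le, h (k + 1) (mem_range.1 hk)]

theorem stepProb_congr {x x' : ℕ → V} {n : ℕ} (h : ∀ i ≤ n, x i = x' i) :
    stepProb G γ x n = stepProb G γ x' n := by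
  classical
  funext y
  unfold stepProb
  simp only [crossing_congr h]
  rw [h n le_rfl]

/-- The walk exists. -/
theorem exists_walk [Nontrivial V] (hG : G.Connected) (v : V) :
    ∃ (_ : MeasurableSpace (ℕ → V)) (P : Measure (ℕ → V)), IsWalk G γ v P fun n ω => ω n := by
  have := countable_of_connected G hG
  have hnb : ∀ a, ∃ b, G.Adj a b := fun a => by
    have := hG.preconnected.degree_pos_of_nontrivial a
    exact (G.degree_pos_iff_exists_adj a).1 this
  obtain ⟨m, P, h1, h2, h3, h4⟩ := Pool.Agent.R766.Proc.exists_process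
    (fun n x y => ENNReal.ofReal (stepProb G γ x n y))
    (fun n x => tsum_stepProb G γ x n (hnb _))
    (fun n x x' h => by rw [stepProb_congr G γ h]) v
  exact ⟨m, P, h1, h2, h3, h4⟩

theorem not_trapped {γ : ℝ} (hG : G.Connected) (hγ : 0 ≤ γ)
    (h : γ ≤ 1 / 2 ∨ γ ≤ 1 ∧ ∃ w, G.degree w ≠ 2) {v : V} {Ω : Type*} {_ : MeasurableSpace Ω}
    {P : Measure Ω} {X : ℕ → Ω → V} (hX : IsWalk G γ v P X) :
    P {ω | Trapped G fun n => X n ω} = 0 := by
  have := countable_of_connected G hG
  have := hX.prob
  have h1 : {ω | Trapped G fun n => X n ω} ⊆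
      ⋃ x ∈ {x : ℕ → V | Trapped G x}, {ω | ∀ n, X n ω = x n} := by
    intro ω hω
    exact Set.mem_biUnion (x := fun n => X n ω) hω fun n => rfl
  refine measure_mono_null h1 ((measure_biUnion_null_iff (countable_trapped G)).2 fun x hx => ?_)
  refine Pool.Agent.R766.Proc.path_null P X (fun n x y => ENNReal.ofReal (stepProb G γ x n y))
    hX.step x (fun n => 1 - stepProb G γ x n (x (n + 1)))
    (fun n => sub_nonneg.2 (stepProb_le_one G γ x n _)) (fun n => ?_)
    (trapped_diverges G hG hγ h hx)
  rw [sub_sub_cancel]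

/-- **Polynomially reinforced directed walks need not be trapped.** Let `G` be a connected locally
finite graph with at least two vertices and `0 < γ`. If `γ ≤ 1/2`, or if `γ ≤ 1` and some vertex of
`G` has degree different from `2`, then the walk with polynomial reinforcement of parameter `γ`
exists, and with probability one it is not trapped in a directed circuit. -/
theorem result {V : Type} [Nontrivial V] (G : SimpleGraph V) [G.LocallyFinite] (hG : G.Connected)
    (v : V) (γ : ℝ) (hγ : 0 < γ) (h : γ ≤ 1 / 2 ∨ γ ≤ 1 ∧ ∃ w, G.degree w ≠ 2) :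
    (∃ (Ω : Type) (_ : MeasurableSpace Ω) (P : Measure Ω) (X : ℕ → Ω → V), IsWalk G γ v P X) ∧
    ∀ (Ω : Type) (_ : MeasurableSpace Ω) (P : Measure Ω) (X : ℕ → Ω → V), IsWalk G γ v P X →
      P {ω | Trapped G fun n => X n ω} = 0 := by
  obtain ⟨m, P, hP⟩ := exists_walk G γ hG v
  exact ⟨⟨_, m, P, _, hP⟩, fun Ω _ P X hX => not_trapped G hG hγ.le h hX⟩

end Pool.Agent.Results.MP_856411_pr.NotTrapped
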